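import Pool.Agent.H516.PCF.All

/-!
# The path lemma (maximum principle in the tree of discs), `S_PT`
-/

set_option autoImplicit false

namespace Pool.Agent.H127.PCF

open Polynomial
open Pool.Agent.H516.PCF (NA mn gv S_NAB S_GVB S_PT)

namespace PT

variable {F : Type} [Field F] {w : F → ℝ}

/-- `z` is in the closed disc `(a, t)` -/
def inD (w : F → ℝ) (a : F) (t : ℝ) (z : F) : Prop := z = a ∨ t ≤ w (a - z)

/-- the ultrametric facts -/
structure Um (w : F → ℝ) : Prop where
  sym : ∀ x y, x ≠ y → w (x - y) = w (y - x)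
  tri : ∀ a b c, a ≠ b → b ≠ c → a ≠ c → min (w (a - b)) (w (b - c)) ≤ w (a - c)
  iso : ∀ a b c, a ≠ b → b ≠ c → w (a - b) < w (b - c) → a ≠ c ∧ w (a - c) = w (a - b)

theorem inD_self (a : F) (t : ℝ) : inD w a t a := Or.inl rfl

theorem inD_mono {a z : F} {t t' : ℝ} (h : t ≤ t') (hz : inD w a t' z) : inD w a t z :=
  hz.imp id (fun h' => h.trans h')

theorem inD_symm (hu : Um w) {a b : F} {t : ℝ} (h : inD w a t b) : inD w b t a := by
  by_cases hab : a = b
  · exact Or.inl hab
  · rcases h with h | h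
    · exact absurd h.symm hab
    · right
      rw [← hu.sym a b hab]
      exact h

theorem inD_trans (hu : Um w) {a b c : F} {t : ℝ} (h1 : inD w a t b) (h2 : inD w b t c) : inD w a t c := by
  rcases h1 with rfl | h1
  · exact h2
  rcases h2 with rfl | h2
  · exact Or.inr h1
  by_cases hac : a = c
  · exact Or.inl hac.symm
  by_cases hab : a = b
  · rw [hab]
    exact Or.inr h2
  by_cases hbc : b = c
  · rw [← hbc]
    exact Or.inr h1
  exact Or.inr ((le_min h1 h2).trans (hu.tri a b c hab hbc hac))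

theorem mn_of_inD {a z : F} {t : ℝ} (h : inD w a t z) : mn w a z t = t := by
  unfold mn
  split_ifs with h0
  · rfl
  · rcases h with h | h
    · exact absurd h.symm h0
    · exact min_eq_right h

theorem mn_of_not {a z : F} {t : ℝ} (h : ¬ inD w a t z) : mn w a z t = w (a - z) := by
  unfold mn
  unfold inD at h
  push Not at h
  rw [if_neg (fun h0 => h.1 h0.symm)]
  exact min_eq_left h.2.le

/-- change of centre -/
theorem mn_centre (hu : Um w) {a b : F} {t : ℝ} (h : inD w a t b) (z : F) : mn w a z t = mn w b z t := by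
  by_cases hz : inD w a t z
  · rw [mn_of_inD hz, mn_of_inD (inD_trans hu (inD_symm hu h) hz)]
  · have hz' : ¬ inD w b t z := fun h' => hz (inD_trans hu h h')
    rw [mn_of_not hz, mn_of_not hz']
    rcases h with rfl | h
    · rfl
    · unfold inD at hz hz'
      push Not at hz hz'
      by_cases hab : a = b
      · rw [hab]
      · have h1 : w (z - b) < w (b - a) := by
          rw [hu.sym z b hz'.1, ← hu.sym a b hab]
          linarith [hz'.2]
        have h2 := hu.iso z b a hz'.1 (fun h' => hab h'.symm) h1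
        rw [hu.sym a z h2.1.symm, hu.sym b z hz'.1.symm, h2.2]

open Classical in
/-- the weight of a closed disc -/
noncomputable def Wt (w : F → ℝ) (S : Finset F) (m : F → ℤ) (a : F) (t : ℝ) : ℤ :=
  ∑ z ∈ S.filter (fun z => inD w a t z), m z

/-- the difference of the Gauss valuations -/
noncomputable def ph (w : F → ℝ) (S : Finset F) (m : F → ℤ) (a : F) (ρ : ℝ) : ℝ :=
  ∑ z ∈ S, (m z : ℝ) * mn w a z ρ

/-- a set covered by discs of weight at most zero has weight at most zero -/
theorem cover (hu : Um w) (m : F → ℤ) : ∀ (n : ℕ) (T : Finset F), T.card ≤ n → ∀ t : F → ℝ,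
    (∀ c ∈ T, Wt w T m c (t c) ≤ 0) → ∑ z ∈ T, m z ≤ 0 := by
  classical
  intro n
  induction n with
  | zero =>
    intro T hT t _
    rw [Finset.card_eq_zero.1 (Nat.le_zero.1 hT)]
    simp
  | succ n ih =>
    intro T hT t ht
    rcases T.eq_empty_or_nonempty with rfl | hne
    · simp
    obtain ⟨c, hc, hmin⟩ := Finset.exists_min_image T t hne
    rw [← Finset.sum_filter_add_sum_filter_not T (fun z => inD w c (t c) z)]
    have h1 : ∑ z ∈ T.filter (fun z => inD w c (t c) z), m z ≤ 0 := by
      have := ht c hc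
      unfold Wt at this
      exact this
    have h2 : ∑ z ∈ T.filter (fun z => ¬ inD w c (t c) z), m z ≤ 0 := by
      apply ih _ _ t
      · intro c' hc'
        rw [Finset.mem_filter] at hc'
        have h3 := ht c' hc'.1
        unfold Wt at h3 ⊢
        have h4 : (T.filter (fun z => ¬ inD w c (t c) z)).filter (fun z => inD w c' (t c') z) =
            T.filter (fun z => inD w c' (t c') z) := by
          ext z
          simp only [Finset.mem_filter]
          constructor
          · rintro ⟨⟨h5, -⟩, h6⟩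
            exact ⟨h5, h6⟩
          · rintro ⟨h5, h6⟩
            refine ⟨⟨h5, fun h7 => hc'.2 ?_⟩, h6⟩
            exact inD_trans hu h7 (inD_symm hu (inD_mono (hmin c' hc'.1) h6))
        rw [h4]
        exact h3
      · have h5 : (T.filter (fun z => ¬ inD w c (t c) z)).card < T.card := by
          apply Finset.card_lt_card
          rw [Finset.filter_ssubset]
          exact ⟨c, hc, fun h6 => h6 (inD_self c _)⟩
        omega
    linarith

/-- inside a disc of positive weight there is a centre all of whose discs have positive weight -/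
theorem inside (hu : Um w) (S : Finset F) (m : F → ℤ) (a : F) (s : ℝ) (h : 1 ≤ Wt w S m a s) :
    ∃ c ∈ S, inD w a s c ∧ ∀ t, s ≤ t → 1 ≤ Wt w S m c t := by
  classical
  by_contra hcon
  push Not at hcon
  have h1 : ∀ c, ∃ t : ℝ, c ∈ S → inD w a s c → s ≤ t ∧ Wt w S m c t < 1 := by
    intro c
    by_cases h2 : c ∈ S ∧ inD w a s c
    · obtain ⟨t, ht⟩ := hcon c h2.1 h2.2
      exact ⟨t, fun _ _ => ht⟩
    · exact ⟨0, fun h3 h4 => absurd ⟨h3, h4⟩ h2⟩
  choose t ht using h1
  have h2 := cover hu m _ (S.filter (fun z => inD w a s z)) le_rfl t (by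
    intro c hc
    rw [Finset.mem_filter] at hc
    obtain ⟨h3, h4⟩ := ht c hc.1 hc.2
    have h5 : Wt w (S.filter (fun z => inD w a s z)) m c (t c) = Wt w S m c (t c) := by
      unfold Wt
      congr 1
      ext z
      simp only [Finset.mem_filter]
      constructor
      · rintro ⟨⟨h5, -⟩, h6⟩
        exact ⟨h5, h6⟩
      · rintro ⟨h5, h6⟩
        exact ⟨⟨h5, inD_trans hu hc.2 (inD_mono h3 h6)⟩, h6⟩
    rw [h5]
    omega)
  unfold Wt at h
  omega

/-- monotonicity -/
theorem mono_aux (S : Finset F) (m : F → ℤ) (a : F) : ∀ (n : ℕ) (ρ ρ' : ℝ), ρ ≤ ρ' →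
    (open Classical in (S.filter (fun z => z ≠ a ∧ ρ < w (a - z) ∧ w (a - z) < ρ')).card ≤ n) →
    (∀ t, ρ < t → t ≤ ρ' → 0 ≤ Wt w S m a t) → ph w S m a ρ ≤ ph w S m a ρ' := by
  classical
  intro n
  induction n with
  | zero =>
    intro ρ ρ' hle hcard hW
    rcases hle.eq_or_lt with rfl | hlt
    · exact le_rfl
    have hemp := Finset.card_eq_zero.1 (Nat.le_zero.1 hcard)
    have h1 : ph w S m a ρ' - ph w S m a ρ = (ρ' - ρ) * (Wt w S m a ρ' : ℝ) := by
      unfold ph Wt
      rw [← Finset.sum_sub_distrib, Finset.sum_filter, Int.cast_sum, Finset.mul_sum]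
      refine Finset.sum_congr rfl fun z hz => ?_
      by_cases hz' : inD w a ρ' z
      · rw [if_pos hz', mn_of_inD hz', mn_of_inD (inD_mono hle hz')]
        ring
      · rw [if_neg hz', Int.cast_zero, mul_zero, mn_of_not hz']
        have hz2 : z ≠ a ∧ w (a - z) < ρ' := by
          unfold inD at hz'
          push Not at hz'
          exact hz'
        have hz3 : w (a - z) ≤ ρ := by
          by_contra h2
          push Not at h2
          have : z ∈ S.filter (fun z => z ≠ a ∧ ρ < w (a - z) ∧ w (a - z) < ρ') :=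
            Finset.mem_filter.2 ⟨hz, hz2.1, h2, hz2.2⟩
          rw [hemp] at this
          simp at this
        have hz4 : mn w a z ρ = w (a - z) := by
          unfold mn
          rw [if_neg (fun h0 => hz2.1 h0.symm)]
          exact min_eq_left hz3
        rw [hz4, sub_self]
    have h2 : (0 : ℝ) ≤ (Wt w S m a ρ' : ℝ) := by exact_mod_cast hW ρ' hlt le_rfl
    have h3 : 0 ≤ (ρ' - ρ) * (Wt w S m a ρ' : ℝ) := mul_nonneg (by linarith) h2
    linarith
  | succ n ih =>
    intro ρ ρ' hle hcard hW
    by_cases hne : (S.filter (fun z => z ≠ a ∧ ρ < w (a - z) ∧ w (a - z) < ρ')).Nonempty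
    · obtain ⟨z₀, hz₀⟩ := hne
      have hz₀' := hz₀
      rw [Finset.mem_filter] at hz₀'
      obtain ⟨hS, hza, hl, hr⟩ := hz₀'
      refine (ih ρ (w (a - z₀)) hl.le ?_ fun t h1 h2 => hW t h1 (h2.trans hr.le)).trans
        (ih (w (a - z₀)) ρ' hr.le ?_ fun t h1 h2 => hW t (hl.trans h1) h2)
      · have : (S.filter (fun z => z ≠ a ∧ ρ < w (a - z) ∧ w (a - z) < w (a - z₀))).card <
            (S.filter (fun z => z ≠ a ∧ ρ < w (a - z) ∧ w (a - z) < ρ')).card := by
          apply Finset.card_lt_card
          refine ⟨fun z hz => ?_, fun hsub => ?_⟩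
          · rw [Finset.mem_filter] at hz ⊢
            exact ⟨hz.1, hz.2.1, hz.2.2.1, hz.2.2.2.trans hr⟩
          · have := hsub hz₀
            rw [Finset.mem_filter] at this
            exact lt_irrefl _ this.2.2.2
        omega
      · have : (S.filter (fun z => z ≠ a ∧ w (a - z₀) < w (a - z) ∧ w (a - z) < ρ')).card <
            (S.filter (fun z => z ≠ a ∧ ρ < w (a - z) ∧ w (a - z) < ρ')).card := by
          apply Finset.card_lt_card
          refine ⟨fun z hz => ?_, fun hsub => ?_⟩
          · rw [Finset.mem_filter] at hz ⊢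
            exact ⟨hz.1, hz.2.1, hl.trans hz.2.2.1, hz.2.2.2⟩
          · have := hsub hz₀
            rw [Finset.mem_filter] at this
            exact lt_irrefl _ this.2.2.1
        omega
    · rw [Finset.not_nonempty_iff_eq_empty] at hne
      exact ih ρ ρ' hle (by rw [hne]; simp) hW

theorem mono (S : Finset F) (m : F → ℤ) (a : F) {ρ ρ' : ℝ} (h : ρ ≤ ρ')
    (hW : ∀ t, ρ < t → t ≤ ρ' → 0 ≤ Wt w S m a t) : ph w S m a ρ ≤ ph w S m a ρ' :=
  mono_aux S m a _ ρ ρ' h le_rfl hW

theorem anti (S : Finset F) (m : F → ℤ) (a : F) {ρ ρ' : ℝ} (h : ρ ≤ ρ')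
    (hW : ∀ t, ρ < t → t ≤ ρ' → Wt w S m a t ≤ 0) : ph w S m a ρ' ≤ ph w S m a ρ := by
  have h1 := mono (w := w) S (fun z => -m z) a h (fun t h2 h3 => by
    have := hW t h2 h3
    unfold Wt at this ⊢
    rw [Finset.sum_neg_distrib]
    omega)
  unfold ph at h1 ⊢
  simp only [Int.cast_neg, neg_mul, Finset.sum_neg_distrib] at h1
  linarith

omit [Field F] in
/-- sums over multisets as weighted sums -/
theorem map_sum (s : Multiset F) (S : Finset F) [DecidableEq F] (h : s.toFinset ⊆ S) (f : F → ℝ) :
    (s.map f).sum = ∑ z ∈ S, (s.count z : ℝ) * f z := by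
  rw [Finset.sum_multiset_map_count, ← Finset.sum_subset h]
  · exact Finset.sum_congr rfl fun z _ => nsmul_eq_mul _ _
  · intro z _ hz
    rw [Multiset.mem_toFinset] at hz
    rw [Multiset.count_eq_zero_of_notMem hz]
    simp

/-- the value of the valuation on a product of differences -/
theorem w_prod {p : ℕ} (hna : NA p w) (w1 : w 1 = 0) (β : F) (s : Multiset F) (h : β ∉ s) :
    (s.map fun z => β - z).prod ≠ 0 ∧ w (s.map fun z => β - z).prod = (s.map fun z => w (β - z)).sum := by
  induction s using Multiset.induction_on with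
  | empty => simp [w1]
  | cons a s ih =>
    rw [Multiset.mem_cons, not_or] at h
    obtain ⟨h1, h2⟩ := ih h.2
    have h3 : β - a ≠ 0 := sub_ne_zero.2 h.1
    rw [Multiset.map_cons, Multiset.prod_cons, Multiset.map_cons, Multiset.sum_cons]
    exact ⟨mul_ne_zero h3 h1, by rw [hna.mul _ _ h3 h1, h2]⟩

end PT

open PT

theorem pt (hNAB : S_NAB) (_hGVB : S_GVB) : S_PT := by
  classical
  intro F _ _ _ p w hp hna U V hU hV β V₀ hUβ hVβ hV₀
  obtain ⟨w1, wneg, winv, wpow, wdiv, wsym, wsum, wtri, wiso, -, -, -⟩ := hNAB F p w hp hna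
  have hu : Um w := ⟨wsym, wtri, wiso⟩
  set S : Finset F := (U.roots + V.roots).toFinset with hS
  have hSU : U.roots.toFinset ⊆ S := by
    intro z hz
    rw [hS, Multiset.mem_toFinset, Multiset.mem_add]
    exact Or.inl (Multiset.mem_toFinset.1 hz)
  have hSV : V.roots.toFinset ⊆ S := by
    intro z hz
    rw [hS, Multiset.mem_toFinset, Multiset.mem_add]
    exact Or.inr (Multiset.mem_toFinset.1 hz)
  have hβU : β ∉ U.roots := fun h => hUβ (isRoot_of_mem_roots h)
  have hβV : β ∉ V.roots := fun h => hVβ (isRoot_of_mem_roots h)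
  have hβS : β ∉ S := by
    rw [hS, Multiset.mem_toFinset, Multiset.mem_add]
    exact fun h => h.elim hβU hβV
  set m : F → ℤ := fun z => (U.roots.count z : ℤ) - V.roots.count z with hm
  set K : ℝ := w U.leadingCoeff - w V.leadingCoeff with hK
  have hdiff : ∀ f : F → ℝ, (U.roots.map f).sum - (V.roots.map f).sum = ∑ z ∈ S, (m z : ℝ) * f z := by
    intro f
    rw [map_sum U.roots S hSU f, map_sum V.roots S hSV f, ← Finset.sum_sub_distrib]
    refine Finset.sum_congr rfl fun z _ => ?_
    rw [hm]
    push_cast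
    ring
  have hgv : ∀ a ρ, gv w U a ρ - gv w V a ρ = K + ph w S m a ρ := by
    intro a ρ
    have h1 := hdiff (fun z => mn w a z ρ)
    unfold gv ph
    rw [← h1, hK]
    ring
  have heval : ∀ R : F[X], R ≠ 0 → β ∉ R.roots →
      w (R.eval β) = w R.leadingCoeff + (R.roots.map fun z => w (β - z)).sum := by
    intro R hR hβ
    obtain ⟨h1, h2⟩ := w_prod hna w1 β R.roots hβ
    rw [(IsAlgClosed.splits R).eval_eq_prod_roots β, hna.mul _ _ (leadingCoeff_ne_zero.2 hR) h1, h2]
  obtain ⟨M, hM⟩ := (S.image fun z => w (β - z)).exists_le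
  have hM' : ∀ z ∈ S, w (β - z) ≤ M := fun z hz => hM _ (Finset.mem_image_of_mem _ hz)
  have hinf : ∀ ρ, M ≤ ρ → V₀ ≤ K + ph w S m β ρ := by
    intro ρ hρ
    have h1 : ph w S m β ρ = ∑ z ∈ S, (m z : ℝ) * w (β - z) := by
      unfold ph
      refine Finset.sum_congr rfl fun z hz => ?_
      unfold mn
      rw [if_neg (fun h : β = z => hβS (h ▸ hz)), min_eq_left ((hM' z hz).trans hρ)]
    have h2 : K + ph w S m β ρ = w (U.eval β) - w (V.eval β) := by
      rw [h1, ← hdiff, heval U hU hβU, heval V hV hβV, hK]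
      ring
    rw [h2]
    exact hV₀
  have hout : ∀ ρ, (∀ t, ρ < t → Wt w S m β t ≤ 0) → V₀ ≤ K + ph w S m β ρ := by
    intro ρ hρ
    have h1 := anti (w := w) S m β (le_max_left ρ M) (fun t h2 _ => hρ t h2)
    have h2 := hinf (max ρ M) (le_max_right _ _)
    linarith
  by_cases hcase : ∀ ρ, Wt w S m β ρ ≤ 0
  · right
    refine ⟨?_, fun ρ => ?_⟩
    · obtain ⟨L', hL'⟩ := (S.image fun z => -w (β - z)).exists_le
      obtain ⟨L, hL⟩ : ∃ L : ℝ, ∀ z ∈ S, L ≤ w (β - z) :=
        ⟨-L', fun z hz => by linarith [hL' _ (Finset.mem_image_of_mem _ hz)]⟩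
      have h1 : Wt w S m β L = ∑ z ∈ S, m z := by
        unfold Wt
        rw [Finset.filter_true_of_mem]
        intro z hz
        exact Or.inr (hL z hz)
      have h2 := hcase L
      rw [h1] at h2
      have h3 := hdiff (fun _ => 1)
      simp only [Multiset.map_const', Multiset.sum_replicate, nsmul_eq_mul, mul_one] at h3
      rw [← Int.cast_sum] at h3
      have h4 : ((∑ z ∈ S, m z : ℤ) : ℝ) ≤ 0 := by exact_mod_cast h2
      have h5 : (U.roots.card : ℝ) ≤ V.roots.card := by linarith
      rw [(IsAlgClosed.splits U).natDegree_eq_card_roots, (IsAlgClosed.splits V).natDegree_eq_card_roots]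
      exact_mod_cast h5
    · rw [hgv]
      exact hout ρ (fun t _ => hcase t)
  · left
    push Not at hcase
    obtain ⟨ρ₀, hρ₀⟩ := hcase
    have hkey : ∀ ρ, 1 ≤ Wt w S m β ρ → ∃ z ∈ S, ρ ≤ w (β - z) ∧ 1 ≤ Wt w S m β (w (β - z)) := by
      intro ρ hρ
      have hne : (S.filter fun z => inD w β ρ z).Nonempty := by
        by_contra hemp
        rw [Finset.not_nonempty_iff_eq_empty] at hemp
        unfold Wt at hρ
        have h1 : S.filter (fun z => inD w β ρ z) = ∅ := by
          rw [← hemp]
        rw [h1] at hρ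
        simp at hρ
      obtain ⟨z, hz, hmin⟩ := Finset.exists_min_image _ (fun z => w (β - z)) hne
      rw [Finset.mem_filter] at hz
      have hzρ : ρ ≤ w (β - z) := by
        rcases hz.2 with h | h
        · exact absurd (h ▸ hz.1) hβS
        · exact h
      refine ⟨z, hz.1, hzρ, ?_⟩
      have h1 : Wt w S m β (w (β - z)) = Wt w S m β ρ := by
        unfold Wt
        congr 1
        ext x
        simp only [Finset.mem_filter]
        constructor
        · rintro ⟨h2, h3⟩
          exact ⟨h2, inD_mono hzρ h3⟩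
        · rintro ⟨h2, h3⟩
          exact ⟨h2, Or.inr (hmin x (Finset.mem_filter.2 ⟨h2, h3⟩))⟩
      rw [h1]
      exact hρ
    obtain ⟨z₀, hz₀, -, hz₀'⟩ := hkey ρ₀ hρ₀
    have hne : (S.filter fun z => 1 ≤ Wt w S m β (w (β - z))).Nonempty :=
      ⟨z₀, Finset.mem_filter.2 ⟨hz₀, hz₀'⟩⟩
    obtain ⟨z₁, hz₁, hmax⟩ := Finset.exists_max_image _ (fun z => w (β - z)) hne
    rw [Finset.mem_filter] at hz₁
    have hgt : ∀ t, w (β - z₁) < t → Wt w S m β t ≤ 0 := by
      intro t ht
      by_contra hpos
      obtain ⟨z, hz, hz1, hz2⟩ := hkey t (by omega)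
      have := hmax z (Finset.mem_filter.2 ⟨hz, hz2⟩)
      linarith
    obtain ⟨c, hcS, hcD, hcW⟩ := inside hu S m β (w (β - z₁)) hz₁.2
    have hcβ : w (β - z₁) ≤ w (β - c) := by
      rcases hcD with h | h
      · exact absurd (h ▸ hcS) hβS
      · exact h
    refine ⟨c, ?_, fun ρ hρ => ⟨?_, ?_⟩⟩
    · obtain ⟨M', hM'⟩ := (S.image fun z => w (c - z)).exists_le
      have h1 := hcW (max (w (β - z₁)) (M' + 1)) (le_max_left _ _)
      have h2 : Wt w S m c (max (w (β - z₁)) (M' + 1)) = m c := by
        unfold Wt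
        have h3 : S.filter (fun z => inD w c (max (w (β - z₁)) (M' + 1)) z) = {c} := by
          ext z
          simp only [Finset.mem_filter, Finset.mem_singleton]
          constructor
          · rintro ⟨h4, h5 | h5⟩
            · exact h5
            · have h6 := hM' _ (Finset.mem_image_of_mem _ h4)
              have h7 := (le_max_right (w (β - z₁)) (M' + 1)).trans h5
              linarith
          · rintro rfl
            exact ⟨hcS, inD_self _ _⟩
        rw [h3, Finset.sum_singleton]
      rw [h2, hm] at h1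
      simp only [count_roots] at h1
      omega
    · rw [hgv]
      exact hout ρ (fun t ht => hgt t (hcβ.trans_lt (hρ.trans_lt ht)))
    · rw [hgv]
      have h1 := mono (w := w) S m c (hcβ.trans hρ) (fun t h2 _ => by
        have := hcW t h2.le
        omega)
      have h2 : ph w S m c (w (β - z₁)) = ph w S m β (w (β - z₁)) := by
        unfold ph
        refine Finset.sum_congr rfl fun z _ => ?_
        rw [mn_centre hu hcD z]
      have h3 := hout (w (β - z₁)) hgt
      rw [← h2] at h3
      linarith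

end Pool.Agent.H127.PCF
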